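import Pool.Agent.Q71.MO.Main

/-! Continuity on the open disc is not enough for the one-radius Morera theorem. -/

set_option autoImplicit false

open Set Filter Topology Metric
open scoped ContDiff

namespace Pool.Agent.Results.MP_9de1de_an.OpenDisc

theorem result (α : ℝ) (h0 : 0 < α) (h1 : α < 1) :
    ∃ f : ℂ → ℂ, ContinuousOn f (ball 0 1) ∧ ContDiffOn ℝ ∞ f (ball 0 1) ∧
      (∀ z, (f z).im = 0) ∧ (∀ z w : ℂ, ‖z‖ = ‖w‖ → f z = f w) ∧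
      (∀ z ∈ ball (0 : ℂ) 1, ∮ ζ in C(z, α * (1 - ‖z‖)), f ζ = 0) ∧
      ¬ DifferentiableOn ℂ f (ball 0 1) := by
  obtain ⟨T, W, V, hTm, hT1, hT0, hWs, hV, hW0, hW1, hE⟩ := Q71.MO.profile h0 h1
  set f : ℂ → ℂ := fun z => ((V (‖z‖ ^ 2) : ℝ) : ℂ) with hf
  have hsmooth : ∀ n, ContDiff ℝ ∞ fun z : ℂ => ((W n (‖z‖ ^ 2) : ℝ) : ℂ) := fun n =>
    Complex.ofRealCLM.contDiff.comp ((hWs n).comp (contDiff_norm_sq ℝ))
  have hfs : ContDiffOn ℝ ∞ f (ball 0 1) := by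
    intro z hz
    have hz1 : ‖z‖ < 1 := by simpa using hz
    obtain ⟨n, hn⟩ := hT1 (‖z‖ ^ 2) (by nlinarith [norm_nonneg z])
    refine ((hsmooth n).contDiffAt.congr_of_eventuallyEq ?_).contDiffWithinAt
    have h2 : Continuous fun ζ : ℂ => ‖ζ‖ ^ 2 := by fun_prop
    filter_upwards [(isOpen_Iio.preimage h2).mem_nhds (show z ∈ _ from hn)] with ζ hζ
    show ((V (‖ζ‖ ^ 2) : ℝ) : ℂ) = _
    rw [hV n _ (le_of_lt hζ)]
  refine ⟨f, hfs.continuousOn, hfs, fun z => Complex.ofReal_im _, ?_, ?_, ?_⟩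
  · intro z w hzw
    show ((V (‖z‖ ^ 2) : ℝ) : ℂ) = ((V (‖w‖ ^ 2) : ℝ) : ℂ)
    rw [hzw]
  · intro z hz
    have hz1 : ‖z‖ < 1 := by simpa using hz
    set ρ := α * (1 - ‖z‖) with hρ
    have hρ0 : 0 < ρ := mul_pos h0 (by linarith)
    have hlt : ‖z‖ + ρ < 1 := by
      have : ρ < 1 * (1 - ‖z‖) := by
        rw [hρ]
        exact mul_lt_mul_of_pos_right h1 (by linarith)
      linarith
    have hnn := norm_nonneg z
    obtain ⟨n, hn⟩ := hT1 ((‖z‖ + ρ) ^ 2) (by nlinarith)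
    have h2 : ∮ ζ in C(z, ρ), f ζ = ∮ ζ in C(z, ρ), ((W n (‖ζ‖ ^ 2) : ℝ) : ℂ) := by
      refine circleIntegral.integral_congr hρ0.le fun ζ hζ => ?_
      show ((V (‖ζ‖ ^ 2) : ℝ) : ℂ) = _
      rw [hV n _ (le_trans ?_ hn.le)]
      have h3 : ‖ζ‖ ≤ ‖z‖ + ρ := by
        have h4 : ‖ζ - z‖ = ρ := by simpa [dist_eq_norm] using hζ
        calc ‖ζ‖ = ‖z + (ζ - z)‖ := by rw [add_sub_cancel]
          _ ≤ ‖z‖ + ‖ζ - z‖ := norm_add_le _ _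
          _ = ‖z‖ + ρ := by rw [h4]
      have := norm_nonneg ζ
      nlinarith
    rw [h2]
    exact Q71.MO.circle_radial (hWs n).continuous z (hE n ‖z‖ hnn hn.le)
  · intro hd
    have han : AnalyticOnNhd ℂ f (ball 0 1) := hd.analyticOnNhd isOpen_ball
    have hα : (α : ℂ) ∈ ball (0 : ℂ) 1 := by
      simpa [abs_of_pos h0] using h1
    have hαn : ‖(α : ℂ)‖ = α := by simp [abs_of_pos h0]
    have hz : f =ᶠ[𝓝 (α : ℂ)] 0 := by
      have h2 : Continuous fun ζ : ℂ => ‖ζ‖ ^ 2 := by fun_prop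
      have h3 : (fun ζ : ℂ => ‖ζ‖ ^ 2) ⁻¹' Ioo (α ^ 2 / 4) (T 0) ∈ 𝓝 (α : ℂ) := by
        refine (isOpen_Ioo.preimage h2).mem_nhds ?_
        show ‖(α : ℂ)‖ ^ 2 ∈ Ioo (α ^ 2 / 4) (T 0)
        rw [hαn]
        exact ⟨by nlinarith, hT0⟩
      filter_upwards [h3] with ζ hζ
      show ((V (‖ζ‖ ^ 2) : ℝ) : ℂ) = 0
      rw [hV 0 _ (le_of_lt hζ.2), hW1 _ (le_of_lt hζ.1), Complex.ofReal_zero]
    have h4 := han.eqOn_zero_of_preconnected_of_eventuallyEq_zero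
      (convex_ball (0 : ℂ) 1).isPreconnected hα hz (mem_ball_self one_pos)
    have h5 : f 0 = 1 := by
      show ((V (‖(0 : ℂ)‖ ^ 2) : ℝ) : ℂ) = 1
      have h6 : ‖(0 : ℂ)‖ ^ 2 = 0 := by simp
      rw [h6, hV 0 0 (by nlinarith), hW0, Complex.ofReal_one]
    rw [h5] at h4
    exact one_ne_zero h4

end Pool.Agent.Results.MP_9de1de_an.OpenDisc
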